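import Pool.Agent.Helper41.Cluster4.Goals

/-!
Counting poles (MP_c45da2_co, packet PC).
-/

set_option autoImplicit false

open Finset MulAction

namespace Pool.Agent.Helper57.Cluster4

open Pool.Agent.Helper41.Cluster4

universe u v

theorem arith3 (n a1 a2 a3 r1 r2 r3 : ℕ) (hn : 2 ≤ n) (h1 : a1 * r1 = n) (h2 : a2 * r2 = n)
    (h3 : a3 * r3 = n) (hs : a1 + a2 + a3 = n + 2) (hr : 2 ≤ r1) (h12 : r1 ≤ r2)
    (h23 : r2 ≤ r3) :
    (r3 ≤ 47 → n ≤ 94) ∧
    (r3 ≤ 6 → n ≤ 12 ∨ (n = 24 ∧ r1 = 2 ∧ r2 = 3 ∧ r3 = 4 ∧ a3 = 6) ∨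
      (n = 60 ∧ r1 = 2 ∧ r2 = 3 ∧ r3 = 5)) := by
  have mono : ∀ a r s : ℕ, s ≤ r → a * s ≤ a * r := fun a r s h => Nat.mul_le_mul_left a h
  have hr1 : r1 = 2 := by
    by_contra hne
    have g1 := mono a1 r1 3 (by omega)
    have g2 := mono a2 r2 3 (by omega)
    have g3 := mono a3 r3 3 (by omega)
    omega
  subst hr1
  have hr2 : r2 ≤ 3 := by
    by_contra hne
    have g2 := mono a2 r2 4 (by omega)
    have g3 := mono a3 r3 4 (by omega)
    omega
  have hr2' : r2 = 2 ∨ r2 = 3 := by omega
  rcases hr2' with rfl | rfl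
  · have ha3 : a3 = 2 := by omega
    subst ha3
    constructor
    · intro h
      omega
    · intro h
      left
      omega
  · have hr3 : r3 < 6 := by
      by_contra hne
      have g3 := mono a3 r3 6 (by omega)
      omega
    have hr3' : r3 = 3 ∨ r3 = 4 ∨ r3 = 5 := by omega
    rcases hr3' with rfl | rfl | rfl
    · constructor
      · intro _
        omega
      · intro _
        left
        omega
    · constructor
      · intro _
        omega
      · intro _
        right
        left
        omega
    · constructor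
      · intro _
        omega
      · intro _
        right
        right
        omega

theorem poleCount : PoleCount.{u, v} := by
  intro Γ P _ _ _ _ hfix hst
  classical
  haveI := Fintype.ofFinite Γ
  haveI := Fintype.ofFinite P
  let Ω := Quotient (orbitRel Γ P)
  haveI : Fintype Ω := Fintype.ofFinite Ω
  let mk : P → Ω := fun p => Quotient.mk (orbitRel Γ P) p
  let r : P → ℕ := fun p => Nat.card (stabilizer Γ p)
  let R : Ω → ℕ := fun w => r w.out
  have hrR : ∀ p : P, r p = R (mk p) := by
    intro p
    have h : orbitRel Γ P (mk p).out p := by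
      exact Quotient.mk_out p
    exact (Nat.card_congr (stabilizerEquivStabilizerOfOrbitRel h).toEquiv).symm
  let a : Ω → ℕ := fun w => (univ.filter (fun p : P => mk p = w)).card
  have hmk : ∀ (w : Ω) (p : P), mk p = w ↔ p ∈ orbit Γ w.out := by
    intro w p
    have h0 : w = mk w.out := (Quotient.out_eq w).symm
    conv_lhs => rw [h0]
    exact Quotient.eq.trans Iff.rfl
  have haR : ∀ w : Ω, a w * R w = Nat.card Γ := by
    intro w
    have h := card_orbit_mul_card_stabilizer_eq_card_group Γ w.out
    have h1 : a w = Fintype.card (orbit Γ w.out) := by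
      rw [Fintype.card_subtype]
      refine congrArg Finset.card ?_
      ext p
      simp only [Finset.mem_filter, Finset.mem_univ, true_and]
      exact hmk w p
    have h2 : R w = Fintype.card (stabilizer Γ w.out) := Nat.card_eq_fintype_card
    rw [h1, h2, h, Nat.card_eq_fintype_card]
  -- sum of the orbit sizes
  have hsum : ∑ w : Ω, a w = Fintype.card P := by
    have h := Finset.card_eq_sum_card_fiberwise (s := (univ : Finset P)) (t := (univ : Finset Ω))
      (f := mk) (fun p _ => by simp)
    rw [Finset.card_univ] at h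
    exact h.symm
  have hburn : Fintype.card P + 2 * (Nat.card Γ - 1) = Fintype.card Ω * Nat.card Γ := by
    have h := sum_card_fixedBy_eq_card_orbits_mul_card_group Γ P
    rw [Nat.card_eq_fintype_card (α := Γ), ← h]
    rw [← Finset.add_sum_erase _ _ (Finset.mem_univ (1 : Γ))]
    have h1 : Fintype.card (fixedBy P (1 : Γ)) = Fintype.card P := by
      rw [Fintype.card_subtype]
      rw [Finset.filter_true_of_mem]
      · exact Finset.card_univ
      · intro p _
        simp
    rw [h1]
    congr 1
    rw [Finset.sum_congr rfl (g := fun _ => 2)]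
    · rw [Finset.sum_const, Finset.card_erase_of_mem (Finset.mem_univ _), Finset.card_univ]
      simp [mul_comm]
    · intro g hg
      have h2 := hfix g (Finset.ne_of_mem_erase hg)
      rw [Nat.card_eq_fintype_card] at h2
      exact h2
  have hn0 : 0 < Nat.card Γ := Nat.card_pos
  by_cases hn1 : Nat.card Γ = 1
  · constructor
    · intro _
      omega
    · intro _
      left
      omega
  have hn2 : 2 ≤ Nat.card Γ := by omega
  have hR2 : ∀ w : Ω, 2 ≤ R w := by
    intro w
    have h1 := hst w.out
    have h2 : 0 < Nat.card (stabilizer Γ w.out) := Nat.card_pos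
    show 2 ≤ Nat.card (stabilizer Γ w.out)
    omega
  have ha2 : ∀ w : Ω, a w * 2 ≤ Nat.card Γ := fun w =>
    (Nat.mul_le_mul_left _ (hR2 w)).trans (haR w).le
  have ha1 : ∀ w : Ω, 1 ≤ a w := by
    intro w
    rcases Nat.eq_zero_or_pos (a w) with h | h
    · have := haR w
      rw [h, zero_mul] at this
      omega
    · exact h
  rw [← hsum] at hburn
  have hk : Fintype.card Ω ≤ 3 := by
    by_contra hcon
    push Not at hcon
    have h1 : (∑ w : Ω, a w) * 2 ≤ Fintype.card Ω * Nat.card Γ := by
      rw [Finset.sum_mul]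
      refine (Finset.sum_le_sum (fun w _ => ha2 w)).trans ?_
      rw [Finset.sum_const, Finset.card_univ, smul_eq_mul]
    have h2 : 4 * Nat.card Γ ≤ Fintype.card Ω * Nat.card Γ := Nat.mul_le_mul_right _ hcon
    omega
  have hcount : ∀ j : ℕ, {p : P | Nat.card (stabilizer Γ p) = j}.ncard =
      ∑ w : Ω, if R w = j then a w else 0 := by
    intro j
    rw [Set.ncard_eq_toFinset_card']
    have h := Finset.card_eq_sum_card_fiberwise
      (s := ({p : P | Nat.card (stabilizer Γ p) = j} : Set P).toFinset)
      (t := (univ : Finset Ω)) (f := mk) (fun p _ => by simp)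
    rw [h]
    refine Finset.sum_congr rfl (fun w _ => ?_)
    split_ifs with hw
    · refine congrArg Finset.card ?_
      ext p
      simp only [Finset.mem_filter, Set.mem_toFinset, Set.mem_setOf_eq, Finset.mem_univ, true_and]
      refine ⟨fun h => h.2, fun h => ⟨?_, h⟩⟩
      have := hrR p
      rw [h, hw] at this
      exact this
    · rw [Finset.card_eq_zero, Finset.filter_eq_empty_iff]
      intro p hp hpw
      rw [Set.mem_toFinset, Set.mem_setOf_eq] at hp
      apply hw
      rw [← hpw, ← hrR p]
      exact hp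
  have hcases : Fintype.card Ω = 0 ∨ Fintype.card Ω = 1 ∨ Fintype.card Ω = 2 ∨
      Fintype.card Ω = 3 := by omega
  have hbd : ∀ B : ℕ, (∀ p : P, Nat.card (stabilizer Γ p) ≤ B) → ∀ w, R w ≤ B :=
    fun B h w => h w.out
  rcases hcases with hc | hc | hc | hc
  · exfalso
    have he : IsEmpty Ω := Fintype.card_eq_zero_iff.1 hc
    rw [Finset.univ_eq_empty, Finset.sum_empty, hc] at hburn
    omega
  · exfalso
    let e : Fin 1 ≃ Ω := (Fintype.equivFinOfCardEq hc).symm
    rw [← e.sum_comp, hc, Fin.sum_univ_one] at hburn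
    have := ha1 (e 0)
    omega
  · let e : Fin 2 ≃ Ω := (Fintype.equivFinOfCardEq hc).symm
    rw [← e.sum_comp, hc, Fin.sum_univ_two] at hburn
    have g0 := ha1 (e 0)
    have g1 := ha1 (e 1)
    have ga : a (e 0) = 1 := by omega
    have gR := haR (e 0)
    rw [ga, one_mul] at gR
    constructor
    · intro h
      have := hbd 47 h (e 0)
      omega
    · intro h
      have := hbd 6 h (e 0)
      left
      omega
  · let e0 : Fin 3 ≃ Ω := (Fintype.equivFinOfCardEq hc).symm
    let e : Fin 3 ≃ Ω := (Tuple.sort (R ∘ e0)).trans e0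
    have hmono : Monotone (R ∘ e) := Tuple.monotone_sort (R ∘ e0)
    have h01 : R (e 0) ≤ R (e 1) := hmono (by decide)
    have h12 : R (e 1) ≤ R (e 2) := hmono (by decide)
    rw [← e.sum_comp, hc, Fin.sum_univ_three] at hburn
    have key := arith3 (Nat.card Γ) (a (e 0)) (a (e 1)) (a (e 2)) (R (e 0)) (R (e 1)) (R (e 2))
      hn2 (haR _) (haR _) (haR _) (by omega) (hR2 _) h01 h12
    refine ⟨fun h => key.1 (hbd 47 h _), fun h => ?_⟩
    rcases key.2 (hbd 6 h _) with h1 | ⟨h1, h2, h3, h4, h5⟩ | ⟨h1, h2, h3, h4⟩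
    · left
      exact h1
    · right
      left
      refine ⟨h1, ?_⟩
      rw [hcount 4, ← e.sum_comp, Fin.sum_univ_three, h2, h3, h4, h5]
      simp
    · right
      right
      refine ⟨h1, ⟨(e 2).out, h4⟩, fun p => ?_⟩
      have h5 : Nat.card (stabilizer Γ p) = R (mk p) := hrR p
      rw [h5]
      obtain ⟨i, hi⟩ := e.surjective (mk p)
      rw [← hi]
      fin_cases i
      · show R (e 0) ∈ _
        rw [h2]
        simp
      · show R (e 1) ∈ _
        rw [h3]
        simp
      · show R (e 2) ∈ _
        rw [h4]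
        simp

end Pool.Agent.Helper57.Cluster4
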